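import Pool.Agent.H66.SYM.Basic

namespace Pool.H66.SYM

/-- Generation of the symmetric group. -/
theorem s_GRP : S_GRP := by
  intro m G γ δ k i₀ i₁ hγ hγt hδ hδk hδt hne hsw
  have hconj : ∀ g ∈ G, ∀ a b, Equiv.swap a b ∈ G → Equiv.swap (g a) (g b) ∈ G := by
    intro g hg a b h
    have h1 : g * Equiv.swap a b * g⁻¹ = Equiv.swap (g a) (g b) := by
      rw [Equiv.mul_swap_eq_swap_mul, mul_assoc, mul_inv_cancel, mul_one]
    rw [← h1]
    exact G.mul_mem (G.mul_mem hg h) (G.inv_mem hg)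
  have hfix : ∀ n : ℕ, (δ ^ n) k = k := by
    intro n
    induction n with
    | zero => simp
    | succ n ih => rw [pow_succ, Equiv.Perm.mul_apply, hδk, ih]
  obtain ⟨n, hn⟩ := hγt i₀ k
  have h1 := hconj (γ ^ n) (G.pow_mem hγ n) i₀ i₁ hsw
  rw [hn] at h1
  have h2 : (γ ^ n) i₁ ≠ k := by
    intro h
    apply hne
    apply (γ ^ n).injective
    rw [hn, h]
  have h3 : ∀ b, Equiv.swap k b ∈ G := by
    intro b
    rcases eq_or_ne b k with rfl | hb
    · rw [Equiv.swap_self]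
      exact G.one_mem
    · obtain ⟨l, hl⟩ := hδt ((γ ^ n) i₁) b h2 hb
      have h4 := hconj (δ ^ l) (G.pow_mem hδ l) _ _ h1
      rwa [hfix, hl] at h4
  have h5 : ∀ a b, Equiv.swap a b ∈ G := by
    intro a b
    rcases eq_or_ne b k with rfl | hb
    · rw [Equiv.swap_comm]
      exact h3 a
    rcases eq_or_ne b a with rfl | hab
    · rw [Equiv.swap_self]
      exact G.one_mem
    · have h6 := hconj _ (h3 a) k b (h3 b)
      rw [Equiv.swap_apply_left, Equiv.swap_apply_of_ne_of_ne hb hab] at h6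
      exact h6
  rw [eq_top_iff, ← Equiv.Perm.closure_isSwap, Subgroup.closure_le]
  rintro σ ⟨a, b, -, rfl⟩
  exact h5 a b

end Pool.H66.SYM
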