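import Pool.Agent.H66.SYM.Basic

namespace Pool.H66.SYM

theorem RTA_mon_one {m : ℕ} (c : Fin m → ℂ) : mon c (fun _ => 1) = ∏ j, c j := by
  simp [mon]

theorem RTA_Wt_one (m : ℕ) : (fun _ => 1 : Fin m → ℤ) ∈ Wt m m m := by
  constructor <;> simp

/-- The trivial representation, `τ` and the inverse of its determinant; duals. -/
theorem s_RTA (hBAS : S_BAS) : S_RTA := by
  intro A τ m hm hτ
  obtain ⟨-, -, bpow, bone, bdual, -, bdet, -⟩ := hBAS A
  have hone : A.one ∈ A.Irr τ m 0 0 := by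
    refine ⟨by rw [A.deg_one, pow_zero], ?_⟩
    intro p c _ e he
    rw [bone, Multiset.mem_singleton] at he
    exact ⟨0, Wt_zero m 0, by rw [he, mon_zero]⟩
  have htau : τ ∈ A.Irr τ m 1 1 := by
    refine ⟨by rw [hτ, pow_one], ?_⟩
    intro p c hc e he
    rw [hc] at he
    obtain ⟨j, -, rfl⟩ := Multiset.mem_map.1 he
    exact ⟨ee j, Wt_ee j, (mon_ee c j).symm⟩
  have hdual : ∀ d H z, z ∈ A.Irr τ m d H → A.dual z ∈ A.Irr τ m (-d) H := by
    rintro d H z ⟨h1, h2⟩
    refine ⟨by rw [A.deg_dual]; exact h1, ?_⟩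
    intro p c hc e he
    rw [bdual] at he
    obtain ⟨e', he', rfl⟩ := Multiset.mem_map.1 he
    obtain ⟨a, ha, rfl⟩ := h2 p c hc e' he'
    exact ⟨-a, Wt_neg ha, (mon_neg c a).symm⟩
  have hdet : A.det τ ∈ A.Irr τ m m m := by
    refine ⟨?_, ?_⟩
    · rw [A.deg_det]
      exact Nat.one_le_pow _ _ (by omega)
    · intro p c hc e he
      rw [bdet, Multiset.mem_singleton] at he
      refine ⟨fun _ => 1, RTA_Wt_one m, ?_⟩
      rw [he, hc, RTA_mon_one]
      rfl
  refine ⟨hone, htau, hdual, ?_, ⟨A.det τ, hdet, ?_⟩, ⟨A.dual (A.det τ), hdual _ _ _ hdet, ?_⟩⟩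
  · intro d H F hF
    refine AddSubgroup.closure_induction
      (p := fun F _ => (fun p : A.Pt => F (p.pow (-1))) ∈ A.RH τ m (-d) H) ?_ ?_ ?_ ?_ hF
    · rintro _ ⟨z, hz, rfl⟩
      have h1 : (fun p : A.Pt => A.tr z (p.pow (-1))) = A.tr (A.dual z) := by
        ext p
        unfold AData.tr
        rw [bpow, bdual]
        simp only [zpow_neg, zpow_one]
      rw [h1]
      exact AddSubgroup.subset_closure (Set.mem_image_of_mem _ (hdual d H z hz))
    · exact AddSubgroup.zero_mem _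
    · intro F G _ _ h1 h2
      exact AddSubgroup.add_mem _ h1 h2
    · intro F _ h1
      exact AddSubgroup.neg_mem _ h1
  · intro p
    unfold AData.tr
    rw [bdet, Multiset.sum_singleton]
  · intro p
    unfold AData.tr
    rw [bdual, bdet, Multiset.map_singleton, Multiset.sum_singleton]

end Pool.H66.SYM
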